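import Mathlib
import Pool.Agent.Helper24.QR.Mix
import Pool.Agent.Helper94.HT.Defs
import Pool.Agent.Helper37.HT.HYP

/-!
HEAVY: heavy coordinates of a nonnegative polynomial.
-/

set_option linter.dupNamespace false

namespace Pool.Agent.Helper94.HT

open Finset Pool.Agent.Helper11.Cube Pool.Agent.Helper11.AA Pool.Agent.Helper24.QR

/-! ### HEAVY : heavy coordinates of a nonnegative polynomial -/

/-- the heavy coordinates -/
noncomputable def heavySet {n : ℕ} (η : ℝ) (q : Cube n → ℝ) : Finset (Fin n) := by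
  classical
  exact univ.filter (fun v => η ^ 4 * ex q ^ 2 < ex (fun x => discreteDeriv v q x ^ 2))

lemma mem_heavySet {n : ℕ} {η : ℝ} {q : Cube n → ℝ} {v : Fin n} :
    v ∈ heavySet η q ↔ η ^ 4 * ex q ^ 2 < ex (fun x => discreteDeriv v q x ^ 2) := by
  classical
  simp [heavySet]

namespace Heavy

/-- total influence against the mean -/
lemma total {n r : ℕ} {q : Cube n → ℝ} (hq0 : ∀ x, 0 ≤ q x) (hq : DegLE q r) :
    ∑ v, ex (fun x => discreteDeriv v q x ^ 2) ≤ r * 9 ^ r * ex q ^ 2 := by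
  have h1 := sum_deriv_sq_le hq
  have h2 := l2_le_l1 hq
  have h3 : ex (fun x => |q x|) = ex q := ex_congr fun x => abs_of_nonneg (hq0 x)
  rw [h3] at h2
  calc ∑ v, ex (fun x => discreteDeriv v q x ^ 2) ≤ r * ex (fun x => q x ^ 2) := h1
    _ ≤ r * (9 ^ r * ex q ^ 2) := mul_le_mul_of_nonneg_left h2 (Nat.cast_nonneg _)
    _ = r * 9 ^ r * ex q ^ 2 := by ring

end Heavy

lemma heavy_card {n r : ℕ} {q : Cube n → ℝ} (hq0 : ∀ x, 0 ≤ q x) (hq : DegLE q r) {η : ℝ}
    (hη : 0 < η) : ((heavySet η q).card : ℝ) ≤ r * 9 ^ r / η ^ 4 := by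
  have hB : 0 ≤ ex q := ex_nonneg hq0
  have htot := Heavy.total hq0 hq
  have hη4 : 0 < η ^ 4 := by positivity
  rcases hB.eq_or_lt with h0 | hpos
  · have hempty : heavySet η q = ∅ := by
      rw [Finset.eq_empty_iff_forall_notMem]
      intro v hv
      rw [mem_heavySet, ← h0] at hv
      have h1 : ex (fun x => discreteDeriv v q x ^ 2) ≤ ∑ v, ex (fun x => discreteDeriv v q x ^ 2) :=
        Finset.single_le_sum (f := fun v => ex (fun x => discreteDeriv v q x ^ 2))
          (fun i _ => ex_nonneg fun x => sq_nonneg _) (Finset.mem_univ v)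
      rw [← h0] at htot
      simp only [ne_eq, OfNat.ofNat_ne_zero, not_false_eq_true, zero_pow, mul_zero] at hv htot
      linarith
    rw [hempty, Finset.card_empty, Nat.cast_zero]
    positivity
  · rw [le_div_iff₀ hη4]
    have h1 : ((heavySet η q).card : ℝ) * (η ^ 4 * ex q ^ 2)
        ≤ ∑ v ∈ heavySet η q, ex (fun x => discreteDeriv v q x ^ 2) := by
      rw [← nsmul_eq_mul]
      exact Finset.card_nsmul_le_sum _ _ _ fun v hv => (mem_heavySet.mp hv).le
    have h2 : ∑ v ∈ heavySet η q, ex (fun x => discreteDeriv v q x ^ 2)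
        ≤ ∑ v, ex (fun x => discreteDeriv v q x ^ 2) :=
      Finset.sum_le_sum_of_subset_of_nonneg (Finset.subset_univ _)
        (fun i _ _ => ex_nonneg fun x => sq_nonneg _)
    have h3 : ((heavySet η q).card : ℝ) * η ^ 4 * ex q ^ 2 ≤ r * 9 ^ r * ex q ^ 2 := by
      calc ((heavySet η q).card : ℝ) * η ^ 4 * ex q ^ 2
          = ((heavySet η q).card : ℝ) * (η ^ 4 * ex q ^ 2) := by ring
        _ ≤ _ := h1
        _ ≤ _ := h2
        _ ≤ _ := htot
    exact le_of_mul_le_mul_right h3 (by positivity)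

lemma heavy_sup {n r : ℕ} {q : Cube n → ℝ} (hq0 : ∀ x, 0 ≤ q x) (hq : DegLE q r) {η : ℝ}
    (hη : 0 < η) : ∃ s : Cube n → ℝ, (∀ x, 0 ≤ s x) ∧
      (∀ x, ∀ v, v ∉ heavySet η q → |discreteDeriv v q x| ≤ s x) ∧
      ex s ≤ 3 ^ r * (r + 1) * η * ex q := by
  classical
  have hB : 0 ≤ ex q := ex_nonneg hq0
  have htot := Heavy.total hq0 hq
  obtain ⟨W, hW⟩ : ∃ W : Cube n → ℝ, W = fun x =>
    ∑ v ∈ univ \ heavySet η q, discreteDeriv v q x ^ 4 := ⟨_, rfl⟩
  have hW0 : ∀ x, 0 ≤ W x := fun x => by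
    rw [hW]; exact Finset.sum_nonneg fun v _ => by positivity
  refine ⟨fun x => Real.sqrt (Real.sqrt (W x)), fun x => Real.sqrt_nonneg _, ?_, ?_⟩
  · intro x v hv
    have h1 : discreteDeriv v q x ^ 4 ≤ W x := by
      rw [hW]
      exact Finset.single_le_sum (f := fun v => discreteDeriv v q x ^ 4)
        (fun i _ => by positivity) (by simpa using hv)
    apply Real.le_sqrt_of_sq_le
    apply Real.le_sqrt_of_sq_le
    calc (|discreteDeriv v q x| ^ 2) ^ 2 = discreteDeriv v q x ^ 4 := by rw [sq_abs]; ring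
      _ ≤ W x := h1
  · -- fourth power
    have hs4 : ∀ x, (Real.sqrt (Real.sqrt (W x))) ^ 4 = W x := by
      intro x
      calc (Real.sqrt (Real.sqrt (W x))) ^ 4 = ((Real.sqrt (Real.sqrt (W x))) ^ 2) ^ 2 := by ring
        _ = W x := by rw [Real.sq_sqrt (Real.sqrt_nonneg _), Real.sq_sqrt (hW0 x)]
    have hcs : ∀ f : Cube n → ℝ, ex f ^ 2 ≤ ex (fun x => f x ^ 2) := by
      intro f
      have := cauchy_schwarz f (fun _ => 1)
      simpa [ex_const] using this
    set s : Cube n → ℝ := fun x => Real.sqrt (Real.sqrt (W x)) with hs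
    have h4 : ex s ^ 4 ≤ ex W := by
      have a1 := hcs s
      have a2 := hcs (fun x => s x ^ 2)
      have a3 : ex (fun x => (s x ^ 2) ^ 2) = ex W := ex_congr fun x => by
        rw [← pow_mul]; exact hs4 x
      rw [a3] at a2
      calc ex s ^ 4 = (ex s ^ 2) ^ 2 := by ring
        _ ≤ (ex (fun x => s x ^ 2)) ^ 2 := pow_le_pow_left₀ (sq_nonneg _) a1 2
        _ ≤ ex W := a2
    have h5 : ex W ≤ 9 ^ r * (η ^ 4 * ex q ^ 2) * (r * 9 ^ r * ex q ^ 2) := by
      have e1 : ex W = ∑ v ∈ univ \ heavySet η q, ex (fun x => discreteDeriv v q x ^ 4) := by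
        rw [hW]; exact ex_sum _ _
      rw [e1]
      calc ∑ v ∈ univ \ heavySet η q, ex (fun x => discreteDeriv v q x ^ 4)
          ≤ ∑ v ∈ univ \ heavySet η q,
              9 ^ r * (η ^ 4 * ex q ^ 2) * ex (fun x => discreteDeriv v q x ^ 2) := by
            refine Finset.sum_le_sum fun v hv => ?_
            have hv' : v ∉ heavySet η q := by simpa using hv
            have b1 := bonami n r _ (degLE_deriv hq v)
            have b2 : ex (fun x => discreteDeriv v q x ^ 2) ≤ η ^ 4 * ex q ^ 2 := by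
              by_contra hc
              exact hv' (mem_heavySet.mpr (not_le.mp hc))
            have b3 : 0 ≤ ex (fun x => discreteDeriv v q x ^ 2) := ex_nonneg fun x => sq_nonneg _
            calc ex (fun x => discreteDeriv v q x ^ 4)
                ≤ 9 ^ r * ex (fun x => discreteDeriv v q x ^ 2) ^ 2 := b1
              _ = 9 ^ r * (ex (fun x => discreteDeriv v q x ^ 2) *
                    ex (fun x => discreteDeriv v q x ^ 2)) := by ring
              _ ≤ 9 ^ r * ((η ^ 4 * ex q ^ 2) * ex (fun x => discreteDeriv v q x ^ 2)) :=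
                  mul_le_mul_of_nonneg_left (mul_le_mul_of_nonneg_right b2 b3) (by positivity)
              _ = _ := by ring
        _ ≤ ∑ v, 9 ^ r * (η ^ 4 * ex q ^ 2) * ex (fun x => discreteDeriv v q x ^ 2) := by
            refine Finset.sum_le_sum_of_subset_of_nonneg (Finset.subset_univ _) fun i _ _ => ?_
            have b3 : 0 ≤ ex (fun x => discreteDeriv i q x ^ 2) := ex_nonneg fun x => sq_nonneg _
            positivity
        _ = 9 ^ r * (η ^ 4 * ex q ^ 2) * ∑ v, ex (fun x => discreteDeriv v q x ^ 2) := by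
            rw [Finset.mul_sum]
        _ ≤ _ := mul_le_mul_of_nonneg_left htot (by positivity)
    have hs0 : 0 ≤ ex s := ex_nonneg fun x => Real.sqrt_nonneg _
    have hr0 : (0 : ℝ) ≤ r := Nat.cast_nonneg r
    have hR0 : 0 ≤ 3 ^ r * ((r : ℝ) + 1) * η * ex q := by positivity
    refine (pow_le_pow_iff_left₀ hs0 hR0 (by norm_num : (4 : ℕ) ≠ 0)).mp ?_
    refine h4.trans (h5.trans ?_)
    have h81 : (3 ^ r : ℝ) ^ 4 = 9 ^ r * 9 ^ r := by
      rw [← pow_mul, mul_comm r 4, pow_mul, ← mul_pow]; norm_num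
    have hr4 : (r : ℝ) ≤ (r + 1) ^ 4 := by nlinarith [sq_nonneg ((r : ℝ) + 1), sq_nonneg (r : ℝ)]
    calc 9 ^ r * (η ^ 4 * ex q ^ 2) * (r * 9 ^ r * ex q ^ 2)
        = (9 ^ r * 9 ^ r * η ^ 4 * ex q ^ 4) * r := by ring
      _ ≤ (9 ^ r * 9 ^ r * η ^ 4 * ex q ^ 4) * (r + 1) ^ 4 :=
          mul_le_mul_of_nonneg_left hr4 (by positivity)
      _ = (3 ^ r * ((r : ℝ) + 1) * η * ex q) ^ 4 := by
          rw [← h81]; ring

end Pool.Agent.Helper94.HT
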